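import Pool.Agent.W743.HP.Stm

/-!
Project HP (helper743): evaluation is compatible with the operations.
-/

set_option autoImplicit false

open Set Filter Topology MeasureTheory

namespace Pool.Agent.W428.HP.EV

open Pool.Agent.W743.HP

theorem evE_ue {z : ℂ} (hz : ‖z‖ ≤ 1) (i : ℕ × ℕ) :
    evE z (ue i) = ‖z‖ ^ (2 * i.2) * (z ^ (4 * i.1)).re := by
  unfold evE
  rw [lift_ue, if_pos hz]

theorem evQ_ue {z : ℂ} (hz : ‖z‖ ≤ 1) (n : ℕ) : evQ z (ue n) = z ^ (4 * n) := by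
  unfold evQ
  rw [lift_ue, if_pos hz]

/-- The product with the conjugate. -/
theorem re_mul_conj (z : ℂ) (i k : ℕ) :
    (z ^ (4 * i) * (starRingEnd ℂ) (z ^ (4 * k))).re =
      ‖z‖ ^ (2 * (4 * min i k)) * (z ^ (4 * ((i - k) + (k - i)))).re := by
  have h0 : ∀ m : ℕ, z ^ (4 * m) * (starRingEnd ℂ) (z ^ (4 * m)) = ((‖z‖ ^ (2 * (4 * m)) : ℝ) : ℂ) := by
    intro m
    rw [Complex.mul_conj, Complex.normSq_eq_norm_sq, norm_pow, ← pow_mul]
    congr 2
    ring
  rcases le_total k i with h | h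
  · have h1 : z ^ (4 * i) = z ^ (4 * (i - k)) * z ^ (4 * k) := by
      rw [← pow_add]
      congr 1
      omega
    have h2 : (i - k) + (k - i) = i - k := by omega
    rw [h1, mul_assoc, h0, min_eq_right h, h2, Complex.re_mul_ofReal]
    ring
  · have h1 : z ^ (4 * k) = z ^ (4 * (k - i)) * z ^ (4 * i) := by
      rw [← pow_add]
      congr 1
      omega
    have h2 : (i - k) + (k - i) = k - i := by omega
    have h3 : z ^ (4 * i) * (starRingEnd ℂ) (z ^ (4 * (k - i)) * z ^ (4 * i)) =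
        (starRingEnd ℂ) (z ^ (4 * (k - i))) * (z ^ (4 * i) * (starRingEnd ℂ) (z ^ (4 * i))) := by
      rw [map_mul]
      ring
    rw [h1, h3, h0, min_eq_left h, h2, Complex.re_mul_ofReal, Complex.conj_re]
    ring

theorem bil {ι κ Y : Type} [NormedAddCommGroup Y] [NormedSpace ℝ Y] [DecidableEq ι]
    [DecidableEq κ] (A B : L1 ι →L[ℝ] L1 κ →L[ℝ] Y)
    (h : ∀ i j, A (ue i) (ue j) = B (ue i) (ue j)) : A = B :=
  L1.ext_ue fun i => L1.ext_ue fun j => h i j

theorem ev_mul {z : ℂ} (hz : ‖z‖ ≤ 1) (a b : E) : evE z (mulE a b) = evE z a * evE z b := by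
  have h : (ContinuousLinearMap.compL ℝ E E ℝ (evE z)).comp mulE =
      (ContinuousLinearMap.mul ℝ ℝ).bilinearComp (evE z) (evE z) := by
    refine bil _ _ fun i k => ?_
    simp only [ContinuousLinearMap.comp_apply, ContinuousLinearMap.compL_apply,
      ContinuousLinearMap.bilinearComp_apply, ContinuousLinearMap.mul_apply']
    unfold mulE
    rw [lift₂_ue, map_add, map_smul, map_smul, evE_ue hz, evE_ue hz, evE_ue hz, evE_ue hz]
    simp only [smul_eq_mul]
    have h1 := re_mul_conj z i.1 k.1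
    have h2 : ‖z‖ ^ (2 * (i.2 + k.2 + 4 * min i.1 k.1)) =
        ‖z‖ ^ (2 * i.2) * ‖z‖ ^ (2 * k.2) * ‖z‖ ^ (2 * (4 * min i.1 k.1)) := by
      rw [← pow_add, ← pow_add]
      congr 1
      ring
    have h3 : ‖z‖ ^ (2 * (i.2 + k.2)) = ‖z‖ ^ (2 * i.2) * ‖z‖ ^ (2 * k.2) := by
      rw [← pow_add]
      congr 1
      ring
    have h4 : z ^ (4 * (i.1 + k.1)) = z ^ (4 * i.1) * z ^ (4 * k.1) := by
      rw [← pow_add]
      congr 1
      ring
    rw [h2, h3, h4]
    have h5 : ‖z‖ ^ (2 * i.2) * ‖z‖ ^ (2 * k.2) * ‖z‖ ^ (2 * (4 * min i.1 k.1)) *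
        (z ^ (4 * ((i.1 - k.1) + (k.1 - i.1)))).re = ‖z‖ ^ (2 * i.2) * ‖z‖ ^ (2 * k.2) *
        (z ^ (4 * i.1) * (starRingEnd ℂ) (z ^ (4 * k.1))).re := by
      rw [h1]
      ring
    rw [h5, Complex.mul_re, Complex.mul_re, Complex.conj_re, Complex.conj_im]
    ring
  exact DFunLike.congr_fun (DFunLike.congr_fun h a) b

theorem ev_BB {z : ℂ} (hz : ‖z‖ ≤ 1) (p r : Q) :
    evE z (BB p r) = (evQ z p * starRingEnd ℂ (evQ z r)).re := by
  have h : (ContinuousLinearMap.compL ℝ Q E ℝ (evE z)).comp BB =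
      (ContinuousLinearMap.compL ℝ Q ℂ ℝ Complex.reCLM).comp
        ((ContinuousLinearMap.mul ℝ ℂ).bilinearComp (evQ z)
          ((Complex.conjCLE : ℂ →L[ℝ] ℂ).comp (evQ z))) := by
    refine bil _ _ fun i k => ?_
    simp only [ContinuousLinearMap.comp_apply, ContinuousLinearMap.compL_apply,
      ContinuousLinearMap.bilinearComp_apply, ContinuousLinearMap.mul_apply']
    unfold BB
    rw [lift₂_ue, evE_ue hz, evQ_ue hz, evQ_ue hz]
    have h1 := re_mul_conj z i k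
    simp only [Complex.reCLM_apply]
    exact h1.symm
  exact DFunLike.congr_fun (DFunLike.congr_fun h p) r

theorem ev_RR {z : ℂ} (hz : ‖z‖ ≤ 1) (a : E) : evE z (RR a) = ‖z‖ ^ 2 * evE z a := by
  have h : (evE z).comp RR = (‖z‖ ^ 2) • evE z := by
    refine L1.ext_ue fun i => ?_
    simp only [ContinuousLinearMap.comp_apply, ContinuousLinearMap.smul_apply, smul_eq_mul]
    unfold RR
    rw [lift_ue, evE_ue hz, evE_ue hz]
    ring
  exact DFunLike.congr_fun h a

theorem ev : S_EV := by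
  intro z hz
  refine ⟨ev_mul hz, ev_BB hz, ev_RR hz, ?_, ?_⟩
  · rw [evE_ue hz]
    simp
  · rw [evQ_ue hz]
    simp

end Pool.Agent.W428.HP.EV
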