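import Pool.Agent.W743.HP.Stm

/-!
Project HP (helper743): the image of the closed disc is not a Euclidean ball.
-/

set_option autoImplicit false

open Set Filter Topology MeasureTheory

namespace Pool.Agent.W428.HP.NB

open Pool.Agent.W743.HP

/-- The radius of the disc. -/
noncomputable def ss : ℝ := Real.sqrt (1 / 2)

theorem ss_pos : 0 < ss := Real.sqrt_pos.2 (by norm_num)

theorem ss_sq : ss ^ 2 = 1 / 2 := Real.sq_sqrt (by norm_num)

theorem ss_lt : ss < 1 := by
  have h1 := ss_sq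
  have h2 := ss_pos
  nlinarith

theorem cd_eq : cd = Metric.closedBall (0 : ℂ) ss := by
  ext z
  simp only [cd, mem_ofPred_eq, Metric.mem_closedBall, dist_zero_right]
  rw [← ss_sq]
  constructor
  · intro h
    exact le_of_sq_le_sq h ss_pos.le
  · intro h
    exact pow_le_pow_left₀ (norm_nonneg _) h 2

theorem nb (hI : S_INJ) (hH : S_HOM) : S_NB := by
  intro f hf hsym w ρ hρ him
  have hcdsub : cd ⊆ Metric.ball (0 : ℂ) 1 := by
    rw [cd_eq]
    exact Metric.closedBall_subset_ball ss_lt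
  -- the centre
  have hinv : ∀ p ∈ Metric.closedBall w ρ, Complex.I * p ∈ Metric.closedBall w ρ := by
    intro p hp
    rw [← him] at hp ⊢
    obtain ⟨x, hx, rfl⟩ := hp
    refine ⟨Complex.I * x, ?_, hsym x (hcdsub hx)⟩
    simp only [cd, mem_ofPred_eq] at hx ⊢
    rw [norm_mul, Complex.norm_I, one_mul]
    exact hx
  have hneg : ∀ p ∈ Metric.closedBall w ρ, -p ∈ Metric.closedBall w ρ := by
    intro p hp
    have h1 := hinv _ (hinv p hp)
    rw [← mul_assoc, Complex.I_mul_I, neg_one_mul] at h1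
    exact h1
  have hw : w = 0 := by
    by_contra hw0
    have hwn : 0 < ‖w‖ := norm_pos_iff.2 hw0
    have h1 : w + (ρ / ‖w‖ : ℝ) • w ∈ Metric.closedBall w ρ := by
      rw [Metric.mem_closedBall, dist_eq_norm, add_sub_cancel_left, norm_smul, Real.norm_eq_abs,
        abs_of_nonneg (by positivity), div_mul_cancel₀ _ hwn.ne']
    have h2 := hneg _ h1
    rw [Metric.mem_closedBall, dist_eq_norm] at h2
    have h3 : -(w + (ρ / ‖w‖ : ℝ) • w) - w = (-(2 + ρ / ‖w‖) : ℝ) • w := by
      simp only [Complex.real_smul]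
      push_cast
      ring
    rw [h3, norm_smul, Real.norm_eq_abs, abs_neg, abs_of_nonneg (by positivity)] at h2
    have h4 : (2 + ρ / ‖w‖) * ‖w‖ = 2 * ‖w‖ + ρ := by
      field_simp
    linarith
  subst hw
  -- the boundary
  obtain ⟨Φ, t, ht0, ht1, hΦ, -⟩ := hH f hf
  have hΦim : Φ '' cd = Metric.closedBall (0 : ℂ) ρ := by
    rw [← him]
    exact image_congr hΦ
  have hbd : ∀ z : ℂ, ‖z‖ = ss → ‖f z‖ = ρ := by
    intro z hz
    have h1 : z ∈ frontier cd := by
      rw [cd_eq, frontier_closedBall _ ss_pos.ne']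
      simpa using hz
    have h2 : Φ z ∈ frontier (Φ '' cd) := by
      rw [← Φ.image_frontier]
      exact mem_image_of_mem _ h1
    rw [hΦim, frontier_closedBall _ hρ.ne', mem_sphere_zero_iff_norm, hΦ z ?_] at h2
    · exact h2
    · rw [cd_eq]
      simp [hz]
  -- the quotient
  have hne : ∀ z ∈ Metric.ball (0 : ℂ) 1, dslope f 0 z ≠ 0 := by
    intro z hz
    by_cases h0 : z = 0
    · subst h0
      rw [dslope_same]
      obtain ⟨t, h1, h2, h3⟩ := hf.f_der
      intro h4
      have h5 := h3 0 hz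
      rw [h4, zero_sub, norm_neg, Complex.norm_real, Real.norm_eq_abs, abs_of_pos (by linarith)]
        at h5
      linarith
    · rw [dslope_of_ne _ h0, slope_def_field, hf.f_zero, sub_zero, sub_zero]
      refine div_ne_zero ?_ h0
      intro h1
      have h2 := (hI f hf).1 hz (Metric.mem_ball_self one_pos) (h1.trans hf.f_zero.symm)
      exact h0 h2
  have hmul : ∀ z, f z = dslope f 0 z * z := by
    intro z
    by_cases h0 : z = 0
    · subst h0
      rw [hf.f_zero, mul_zero]
    · rw [dslope_of_ne _ h0, slope_def_field, hf.f_zero, sub_zero, sub_zero, div_mul_cancel₀ _ h0]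
  have hdiff : DifferentiableOn ℂ (dslope f 0) (Metric.ball (0 : ℂ) 1) :=
    (Complex.differentiableOn_dslope (Metric.ball_mem_nhds _ one_pos)).2 hf.f_diff
  have hn : ∀ z : ℂ, ‖z‖ = ss → ‖dslope f 0 z‖ = ρ / ss := by
    intro z hz
    have h1 := hbd z hz
    rw [hmul z, norm_mul, hz] at h1
    rw [← h1, mul_div_cancel_right₀ _ ss_pos.ne']
  have hcl : closure (Metric.ball (0 : ℂ) ss) ⊆ Metric.ball (0 : ℂ) 1 := by
    rw [closure_ball _ ss_pos.ne']
    exact Metric.closedBall_subset_ball ss_lt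
  have hfr : ∀ z ∈ frontier (Metric.ball (0 : ℂ) ss), ‖z‖ = ss := by
    intro z hz
    rw [frontier_ball _ ss_pos.ne'] at hz
    simpa using hz
  have hdc : DiffContOnCl ℂ (dslope f 0) (Metric.ball (0 : ℂ) ss) := (hdiff.mono hcl).diffContOnCl
  have hdc' : DiffContOnCl ℂ (fun z => (dslope f 0 z)⁻¹) (Metric.ball (0 : ℂ) ss) :=
    ((hdiff.mono hcl).inv fun z hz => hne z (hcl hz)).diffContOnCl
  have hle : ∀ z ∈ Metric.ball (0 : ℂ) ss, ‖dslope f 0 z‖ ≤ ρ / ss := by
    intro z hz
    exact Complex.norm_le_of_forall_mem_frontier_norm_le Metric.isBounded_ball hdc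
      (fun z hz => (hn z (hfr z hz)).le) (subset_closure hz)
  have hge : ∀ z ∈ Metric.ball (0 : ℂ) ss, ρ / ss ≤ ‖dslope f 0 z‖ := by
    intro z hz
    have h1 : ‖(dslope f 0 z)⁻¹‖ ≤ (ρ / ss)⁻¹ :=
      Complex.norm_le_of_forall_mem_frontier_norm_le Metric.isBounded_ball hdc'
        (fun z hz => by
          rw [norm_inv, hn z (hfr z hz)]) (subset_closure hz)
    rw [norm_inv] at h1
    have h2 : 0 < ‖dslope f 0 z‖ :=
      norm_pos_iff.2 (hne z (hcl (subset_closure hz)))
    exact (inv_le_inv₀ h2 (div_pos hρ ss_pos)).1 h1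
  have h0m : (0 : ℂ) ∈ Metric.ball (0 : ℂ) ss := Metric.mem_ball_self ss_pos
  have hmax : IsMaxOn (norm ∘ dslope f 0) (Metric.ball (0 : ℂ) ss) 0 := by
    intro z hz
    exact (hle z hz).trans (hge 0 h0m)
  have hcst := Complex.eqOn_of_isPreconnected_of_isMaxOn_norm
    (convex_ball (0 : ℂ) ss).isPreconnected Metric.isOpen_ball hdc.differentiableOn h0m hmax
  refine ⟨dslope f 0 0, ?_⟩
  have h1 : AnalyticOnNhd ℂ f (Metric.ball (0 : ℂ) 1) :=
    hf.f_diff.analyticOnNhd Metric.isOpen_ball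
  have h2 : AnalyticOnNhd ℂ (fun z => dslope f 0 0 * z) (Metric.ball (0 : ℂ) 1) := by
    refine DifferentiableOn.analyticOnNhd ?_ Metric.isOpen_ball
    fun_prop
  exact h1.eqOn_of_preconnected_of_eventuallyEq h2 (convex_ball (0 : ℂ) 1).isPreconnected
    (Metric.mem_ball_self one_pos) (by
      filter_upwards [Metric.ball_mem_nhds (0 : ℂ) ss_pos] with z hz
      rw [hmul z, hcst hz]
      rfl)

end Pool.Agent.W428.HP.NB
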